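import Pool.Agent.L7h49.WN.Def

/-! Project WN, part TIG. -/

set_option autoImplicit false

noncomputable section

namespace Pool.Agent.L7h96.WN
open Pool.Agent.L7h49.WN

/-- choice of the `m` largest values and of a threshold -/
theorem sel (b : ℤ → ℝ) (B : ℝ) (hb : ∀ k, |b k| ≤ B) (m : ℕ) : ∀ S : Finset ℤ, m ≤ S.card →
    ∃ T ⊆ S, T.card = m ∧ ∃ u : ℝ, |u| ≤ B ∧ (∀ j ∈ T, u ≤ b j) ∧ ∀ j ∈ S, j ∉ T → b j ≤ u := by
  have hB : 0 ≤ B := (abs_nonneg _).trans (hb 0)
  induction m with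
  | zero =>
    intro S _
    exact ⟨∅, Finset.empty_subset _, rfl, B, (abs_of_nonneg hB).le, by simp,
      fun j _ _ => (le_abs_self _).trans (hb j)⟩
  | succ m ih =>
    intro S hS
    have hne : S.Nonempty := Finset.card_pos.1 (by omega)
    obtain ⟨j0, hj0, hmax⟩ := Finset.exists_max_image S b hne
    obtain ⟨T, hT, hc, u, hu, h1, h2⟩ := ih (S.erase j0) (by
      rw [Finset.card_erase_of_mem hj0]; omega)
    have hj0T : j0 ∉ T := fun h => (Finset.mem_erase.1 (hT h)).1 rfl
    refine ⟨insert j0 T, ?_, ?_, min u (b j0), ?_, ?_, ?_⟩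
    · intro j hj
      rcases Finset.mem_insert.1 hj with rfl | h
      · exact hj0
      · exact Finset.mem_of_mem_erase (hT h)
    · rw [Finset.card_insert_of_notMem hj0T, hc]
    · rcases min_choice u (b j0) with h | h
      · rw [h]; exact hu
      · rw [h]; exact hb j0
    · intro j hj
      rcases Finset.mem_insert.1 hj with rfl | h
      · exact min_le_right _ _
      · exact (min_le_left _ _).trans (h1 j h)
    · intro j hj hjT
      have hne' : j ≠ j0 := fun h => hjT (by rw [h]; exact Finset.mem_insert_self _ _)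
      exact le_min (h2 j (Finset.mem_erase.2 ⟨hne', hj⟩)
        fun h => hjT (Finset.mem_insert_of_mem h)) (hmax j hj)

theorem norm_zeta : ‖zeta‖ = 1 := by
  unfold zeta
  rw [norm_div]
  have h1 : ‖(1 + Complex.I : ℂ)‖ = √2 := by
    have : (1 + Complex.I : ℂ) = ((1 : ℝ) : ℂ) + ((1 : ℝ) : ℂ) * Complex.I := by simp
    rw [this, Complex.norm_add_mul_I]
    norm_num
  have h2 : ‖((√2 : ℝ) : ℂ)‖ = √2 := by
    rw [Complex.norm_real, Real.norm_of_nonneg (Real.sqrt_nonneg _)]
  rw [h1, h2]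
  exact div_self (by positivity)

/-- displacement in one copy -/
theorem norm_pos (s : Fin 4) (k i k' i' : ℤ) :
    ‖pos (s, k', i') - pos (s, k, i)‖ =
      √(((k' : ℝ) - k) ^ 2 + (((k' : ℝ) - k) / 2 + ((i' : ℝ) - i)) ^ 2) := by
  have h : pos (s, k', i') - pos (s, k, i) = zeta ^ (s : ℕ) *
      ((((k' : ℝ) - k : ℝ) : ℂ) + ((((k' : ℝ) - k) / 2 + ((i' : ℝ) - i) : ℝ) : ℂ) * Complex.I) := by
    unfold pos
    push_cast
    ring
  rw [h, norm_mul, norm_pow, norm_zeta, one_pow, one_mul, Complex.norm_add_mul_I]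

theorem wt_concat {x y z : V} (p : G.Walk x y) (h : G.Adj y z) :
    wt (p.concat h) = wt p + om y z := by
  unfold wt
  rw [SimpleGraph.Walk.darts_concat]
  simp

/-- the number of elements of `T` among the first `n` columns -/
def cnt (T : Finset ℤ) (k : ℤ) (n : ℕ) : ℕ := ∑ j ∈ Finset.range n, if k + (j : ℤ) ∈ T then 1 else 0

theorem cnt_eq (T : Finset ℤ) (k : ℤ) (n : ℕ) (hT : T ⊆ Finset.Ico k (k + n)) :
    cnt T k n = T.card := by
  unfold cnt
  rw [← Finset.card_filter]
  refine Finset.card_bij (fun (j : ℕ) _ => k + (j : ℤ)) ?_ ?_ ?_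
  · intro j hj
    exact (Finset.mem_filter.1 hj).2
  · intro j _ j' _ h
    simpa using h
  · intro t ht
    have h1 := Finset.mem_Ico.1 (hT ht)
    refine ⟨(t - k).toNat, ?_, ?_⟩
    · rw [Finset.mem_filter, Finset.mem_range]
      refine ⟨by omega, ?_⟩
      have : k + ((t - k).toNat : ℤ) = t := by omega
      rw [this]
      exact ht
    · show k + ((t - k).toNat : ℤ) = t
      omega

theorem walk (T : Finset ℤ) (s : Fin 4) (k i : ℤ) (u : ℝ) (H : ℤ → ℝ) (n : ℕ)
    (h1 : ∀ j ∈ Finset.Ico k (k + n), j ∉ T → H (j + 1) - H j = 1 + max (a j) 0)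
    (h2 : ∀ j ∈ T, H (j + 1) - H j - u = 1 + max (-a j) 0) :
    ∀ r : ℕ, r ≤ n → ∀ v : V, v = (s, k + r, i - (cnt T k r : ℤ)) →
      ∃ p : G.Walk (s, k, i) v, wt p = H (k + r) - H k - u * (cnt T k r : ℕ) := by
  intro r
  induction r with
  | zero =>
    intro _ v hv
    have hv' : v = (s, k, i) := by
      rw [hv]
      simp [cnt]
    subst hv'
    refine ⟨SimpleGraph.Walk.nil, ?_⟩
    simp [wt, cnt]
  | succ r ih =>
    intro hr v hv
    obtain ⟨p, hp⟩ := ih (by omega) (s, k + r, i - (cnt T k r : ℤ)) rfl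
    have hc : cnt T k (r + 1) = cnt T k r + if k + (r : ℤ) ∈ T then 1 else 0 := by
      unfold cnt
      rw [Finset.sum_range_succ]
    have hk : (k : ℤ) + ((r + 1 : ℕ) : ℤ) = k + r + 1 := by push_cast; ring
    by_cases hT : k + (r : ℤ) ∈ T
    · rw [if_pos hT] at hc
      have hv' : v = (s, k + r + 1, i - (cnt T k r : ℤ) - 1) := by
        rw [hv, hk, hc]
        push_cast
        congr 2
        ring
      have hadj : G.Adj (s, k + r, i - (cnt T k r : ℤ)) v := by
        rw [hv']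
        refine ⟨?_, ?_⟩
        · intro h
          have := congrArg (fun w : V => w.2.1) h
          simp at this
        · rw [norm_sub_rev, norm_pos]
          rw [Real.sqrt_le_left (by norm_num)]
          push_cast
          ring_nf
          norm_num
      refine ⟨p.concat hadj, ?_⟩
      rw [wt_concat, hp, hk, hc]
      have hom : om (s, k + r, i - (cnt T k r : ℤ)) v = 1 + max (-a (k + r)) 0 := by
        rw [hv']
        unfold om
        rw [if_neg (by simp), if_neg (by rintro ⟨_, h, _⟩; dsimp only at h; omega),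
          if_pos (by simp)]
      rw [hom, ← h2 _ hT]
      push_cast
      ring
    · rw [if_neg hT] at hc
      have hv' : v = (s, k + r + 1, i - (cnt T k r : ℤ)) := by
        rw [hv, hk, hc]
        simp
      have hadj : G.Adj (s, k + r, i - (cnt T k r : ℤ)) v := by
        rw [hv']
        refine ⟨?_, ?_⟩
        · intro h
          have := congrArg (fun w : V => w.2.1) h
          simp at this
        · rw [norm_sub_rev, norm_pos]
          rw [Real.sqrt_le_left (by norm_num)]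
          push_cast
          ring_nf
          norm_num
      refine ⟨p.concat hadj, ?_⟩
      rw [wt_concat, hp, hk, hc]
      have hom : om (s, k + r, i - (cnt T k r : ℤ)) v = 1 + max (a (k + r)) 0 := by
        rw [hv']
        unfold om
        rw [if_pos (by simp)]
      have hmem : k + (r : ℤ) ∈ Finset.Ico k (k + n) := by
        rw [Finset.mem_Ico]
        omega
      rw [hom, ← h1 _ hmem hT]
      push_cast
      ring

theorem s_TIG (hP : S_POT) : S_TIG := by
  intro s k i n m hmn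
  obtain ⟨ha, hpot⟩ := hP
  obtain ⟨T, hTS, hTc, u, hu, hT1, hT2⟩ := sel a (1 / √5) ha m (Finset.Ico k (k + n)) (by
    rw [Int.card_Ico]; simpa using hmn)
  have h5 : (1 : ℝ) / √5 ≤ 1 := by
    rw [div_le_one (by positivity)]
    exact Real.one_le_sqrt.2 (by norm_num)
  have hu1 : |u| ≤ 1 := hu.trans h5
  obtain ⟨H, hH, _, _, _, _, hEq⟩ := hpot u hu1
  have hc := cnt_eq T k n hTS
  rw [hTc] at hc
  obtain ⟨p, hp⟩ := walk T s k i u H n (fun j hj hjT => (hEq hu j).1 (hT2 j hj hjT))
    (fun j hj => (hEq hu j).2 (hT1 j hj)) n le_rfl (s, k + n, i - m) (by rw [hc])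
  refine ⟨p, ?_⟩
  rw [hp, hc, norm_pos]
  have hA := abs_le.1 (hH (k + n))
  have hB := abs_le.1 (hH k)
  have hu2 : u ^ 2 ≤ 1 := by
    have := sq_le_one_iff_abs_le_one u
    exact this.2 hu1
  have hsq : √(1 - u ^ 2) ^ 2 = 1 - u ^ 2 := Real.sq_sqrt (by linarith)
  set c := √(1 - u ^ 2) with hcdef
  have hCS : (n : ℝ) * c + ((n : ℝ) / 2 - m) * u ≤ √(((n : ℝ)) ^ 2 + ((n : ℝ) / 2 - m) ^ 2) := by
    apply Real.le_sqrt_of_sq_le
    nlinarith [sq_nonneg ((n : ℝ) * u - ((n : ℝ) / 2 - m) * c)]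
  have e1 : (((k + (n : ℤ) : ℤ) : ℝ) - (k : ℝ)) = n := by push_cast; ring
  have e2 : (((i - (m : ℤ) : ℤ) : ℝ) - (i : ℝ)) = -m := by push_cast; ring
  rw [e1, e2]
  have e3 : (n : ℝ) / 2 + -(m : ℝ) = (n : ℝ) / 2 - m := by ring
  rw [e3]
  have e4 : ((k + (n : ℤ) : ℤ) : ℝ) = (k : ℝ) + n := by push_cast; ring
  rw [e4] at hA
  nlinarith [hA.1, hA.2, hB.1, hB.2, hCS]

end Pool.Agent.L7h96.WN
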